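import Pool.Agent.Helper20_Cheeger.Main

/-!
# MP_302605_an, Q1 (full answer: yes)

For every dimension `N ≥ 1` and every bounded set `Ω ⊆ ℝ^N` (in particular for every `N ≥ 3` and
every open, bounded, convex `Ω`) the functional `J_Ω[K] = h_K(Ω) |K°|^{1/N}` has a minimizer in the
class `𝒦_N` of non-empty, open, bounded, convex, centrally symmetric sets.
-/

set_option autoImplicit false

open Pool.Agent.Helper20_Cheeger

/-- Existence of optimal anisotropies for the anisotropic Cheeger constant, in every dimension and
for every bounded `Ω`. -/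
theorem Pool.Agent.Results.MP_302605_an.OptimalAnisotropyExists.result :
    ∀ (N : ℕ), 1 ≤ N → ∀ Ω : Set (Sp N), Bornology.IsBounded Ω →
      ∃ K' : Set (Sp N), IsAnisotropy K' ∧
        ∀ K : Set (Sp N), IsAnisotropy K → functionalJ Ω K' ≤ functionalJ Ω K :=
  fun _ hN _ hΩ => exists_minimizer hN hΩ
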